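import Pool.Agent.helper26.EC.SpecS

/-!
# MP_5628fe_nt, row EXV
-/

set_option autoImplicit false

namespace Pool.Agent.EC

open Finset

/-- The weight of the subset `Γ`. -/
def EXV_w (P Γ : Finset ℕ) (g : ℕ → ℝ) : ℝ := (∏ p ∈ Γ, g p) * ∏ p ∈ P \ Γ, (1 - g p)

theorem EXV_id (P : Finset ℕ) (g : ℕ → ℝ) : ∀ C : Finset ℕ → ℝ,
    ∑ E ∈ P.powerset, C E * ∏ p ∈ E, g p =
      ∑ Γ ∈ P.powerset, EXV_w P Γ g * ∑ E ∈ Γ.powerset, C E := by
  induction P using Finset.induction_on with
  | empty =>
    intro C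
    simp [EXV_w]
  | insert a P ha ih =>
    intro C
    have hL : ∑ E ∈ (insert a P).powerset, C E * ∏ p ∈ E, g p =
        ∑ E ∈ P.powerset, (C E + g a * C (insert a E)) * ∏ p ∈ E, g p := by
      rw [Finset.sum_powerset_insert ha, ← Finset.sum_add_distrib]
      refine Finset.sum_congr rfl fun E hE => ?_
      rw [Finset.mem_powerset] at hE
      rw [Finset.prod_insert (fun h => ha (hE h))]
      ring
    have hR : ∑ Γ ∈ (insert a P).powerset, EXV_w (insert a P) Γ g * ∑ E ∈ Γ.powerset, C E =
        ∑ Γ ∈ P.powerset, EXV_w P Γ g * ∑ E ∈ Γ.powerset, (C E + g a * C (insert a E)) := by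
      rw [Finset.sum_powerset_insert ha, ← Finset.sum_add_distrib]
      refine Finset.sum_congr rfl fun Γ hΓ => ?_
      rw [Finset.mem_powerset] at hΓ
      have haΓ : a ∉ Γ := fun h => ha (hΓ h)
      have w1 : EXV_w (insert a P) Γ g = (1 - g a) * EXV_w P Γ g := by
        unfold EXV_w
        rw [Finset.insert_sdiff_of_notMem _ haΓ, Finset.prod_insert (by
          rw [Finset.mem_sdiff]
          exact fun h => ha h.1)]
        ring
      have w2 : EXV_w (insert a P) (insert a Γ) g = g a * EXV_w P Γ g := by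
        unfold EXV_w
        have e : insert a P \ insert a Γ = P \ Γ := by
          ext x
          simp only [Finset.mem_sdiff, Finset.mem_insert, not_or]
          constructor
          · rintro ⟨h1 | h1, h2, h3⟩
            · exact absurd h1 h2
            · exact ⟨h1, h3⟩
          · rintro ⟨h1, h2⟩
            exact ⟨Or.inr h1, fun h => ha (h ▸ h1), h2⟩
        rw [e, Finset.prod_insert haΓ]
        ring
      rw [w1, w2, Finset.sum_powerset_insert haΓ, Finset.sum_add_distrib, ← Finset.mul_sum]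
      ring
    rw [hL, hR]
    exact ih _

theorem EXV : EXV_stmt := by
  intro P g C hg
  have hw : ∀ Γ ∈ P.powerset, 0 ≤ EXV_w P Γ g := by
    intro Γ hΓ
    rw [Finset.mem_powerset] at hΓ
    unfold EXV_w
    apply mul_nonneg
    · exact Finset.prod_nonneg fun p hp => (hg p (hΓ hp)).1
    · refine Finset.prod_nonneg fun p hp => ?_
      have := (hg p (Finset.mem_sdiff.1 hp).1).2
      linarith
  constructor
  · intro h
    rw [EXV_id]
    have h1 : ∏ p ∈ P, (1 - g p) =
        ∑ Γ ∈ P.powerset, EXV_w P Γ g * (if Γ = ∅ then (1 : ℝ) else 0) := by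
      rw [Finset.sum_eq_single ∅]
      · simp [EXV_w]
      · intro Γ _ hΓ
        rw [if_neg hΓ, mul_zero]
      · intro h2
        exact absurd (Finset.empty_mem_powerset P) h2
    rw [h1]
    refine Finset.sum_le_sum fun Γ hΓ => ?_
    exact mul_le_mul_of_nonneg_left (h Γ (Finset.mem_powerset.1 hΓ)) (hw Γ hΓ)
  · intro h
    rw [EXV_id]
    exact Finset.sum_nonneg fun Γ hΓ => mul_nonneg (hw Γ hΓ) (h Γ (Finset.mem_powerset.1 hΓ))

end Pool.Agent.EC
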